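import Pool.Agent.H97.NF.Targets

/-!
# Module ALL: all scales
-/

open MeasureTheory ProbabilityTheory Filter Topology
open scoped ENNReal

namespace Pool.Agent.H19.NF

open Pool.Agent.H97.NF Pool.Agent.H99.NS

theorem half_sum (a1 a2 k : ℕ) :
    ∑ a ∈ Finset.Icc a1 a2, (if a ≤ k then (1 / 2 : ℝ) ^ (k - a) else 0) ≤ 2 := by
  rw [← Finset.sum_filter]
  calc ∑ a ∈ (Finset.Icc a1 a2).filter (fun a => a ≤ k), (1 / 2 : ℝ) ^ (k - a) ≤
      ∑ a ∈ Finset.range (k + 1), (1 / 2 : ℝ) ^ (k - a) := by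
        apply Finset.sum_le_sum_of_subset_of_nonneg
        · intro a ha
          rw [Finset.mem_range]
          have := (Finset.mem_filter.1 ha).2
          omega
        · intro i _ _
          positivity
    _ = ∑ j ∈ Finset.range (k + 1), (1 / 2 : ℝ) ^ j :=
        Finset.sum_flip (fun j => (1 / 2 : ℝ) ^ j)
    _ ≤ 2 := sum_geometric_two_le (k + 1)

theorem swap_sum (a1 a2 n : ℕ) (X : ℕ → ℝ) (hX : ∀ k, 0 ≤ X k) :
    ∑ a ∈ Finset.Icc a1 a2, ∑ k ∈ Finset.Icc a n, (1 / 2 : ℝ) ^ (k - a) * X k ≤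
      2 * ∑ k ∈ Finset.Icc a1 n, X k := by
  have h1 : ∀ a ∈ Finset.Icc a1 a2, ∑ k ∈ Finset.Icc a n, (1 / 2 : ℝ) ^ (k - a) * X k =
      ∑ k ∈ Finset.Icc a1 n, (if a ≤ k then (1 / 2 : ℝ) ^ (k - a) else 0) * X k := by
    intro a ha
    have ha1 := (Finset.mem_Icc.1 ha).1
    have e : Finset.Icc a n = (Finset.Icc a1 n).filter (fun k => a ≤ k) := by
      ext k
      simp only [Finset.mem_Icc, Finset.mem_filter]
      omega
    rw [e, Finset.sum_filter]
    refine Finset.sum_congr rfl fun k _ => ?_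
    split_ifs <;> ring
  rw [Finset.sum_congr rfl h1, Finset.sum_comm, Finset.mul_sum]
  refine Finset.sum_le_sum fun k _ => ?_
  rw [← Finset.sum_mul]
  exact mul_le_mul_of_nonneg_right (half_sum a1 a2 k) (hX k)

theorem sum_sixteen (a1 a2 : ℕ) : ∑ a ∈ Finset.Icc a1 a2, (16 : ℝ) ^ a ≤ 2 * 16 ^ a2 := by
  have h : ∀ m : ℕ, ∑ a ∈ Finset.range (m + 1), (16 : ℝ) ^ a ≤ 2 * 16 ^ m := by
    intro m
    induction m with
    | zero => norm_num
    | succ m ih =>
      rw [Finset.sum_range_succ, pow_succ]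
      have : (0 : ℝ) < 16 ^ m := by positivity
      linarith
  refine le_trans ?_ (h a2)
  apply Finset.sum_le_sum_of_subset_of_nonneg
  · intro a ha
    rw [Finset.mem_range]
    have := (Finset.mem_Icc.1 ha).2
    omega
  · intro i _ _
    positivity

theorem sixteen_le (n a2 : ℕ) (h : 64 ^ a2 ≤ 2 * n) :
    (16 : ℝ) ^ a2 ≤ 2 * (n : ℝ) ^ ((2 : ℝ) / 3) := by
  have e1 : (16 : ℝ) ^ a2 = ((64 : ℝ) ^ a2) ^ ((2 : ℝ) / 3) := by
    have h1 : (64 : ℝ) ^ a2 = ((4 : ℝ) ^ a2) ^ 3 := by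
      rw [← pow_mul, mul_comm, pow_mul]; norm_num
    have h2 : (16 : ℝ) ^ a2 = ((4 : ℝ) ^ a2) ^ 2 := by
      rw [← pow_mul, mul_comm, pow_mul]; norm_num
    rw [h1, h2, ← Real.rpow_natCast ((4 : ℝ) ^ a2) 3, ← Real.rpow_mul (by positivity)]
    norm_num
  have h3 : (64 : ℝ) ^ a2 ≤ 2 * n := by exact_mod_cast h
  rw [e1]
  calc ((64 : ℝ) ^ a2) ^ ((2 : ℝ) / 3) ≤ (2 * (n : ℝ)) ^ ((2 : ℝ) / 3) :=
        Real.rpow_le_rpow (by positivity) h3 (by norm_num)
    _ = (2 : ℝ) ^ ((2 : ℝ) / 3) * (n : ℝ) ^ ((2 : ℝ) / 3) :=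
        Real.mul_rpow (by norm_num) (Nat.cast_nonneg n)
    _ ≤ 2 * (n : ℝ) ^ ((2 : ℝ) / 3) := by
        apply mul_le_mul_of_nonneg_right _ (by positivity)
        calc (2 : ℝ) ^ ((2 : ℝ) / 3) ≤ (2 : ℝ) ^ (1 : ℝ) :=
              Real.rpow_le_rpow_of_exponent_le (by norm_num) (by norm_num)
          _ = 2 := Real.rpow_one 2

/-- The choice of the scales. -/
theorem scales (κ c0 : ℝ) (hκ0 : 0 < κ) (hκ1 : κ ≤ 1) (hc0 : 0 < c0) (hc1 : c0 < 1) (n : ℕ)
    (hn : 1 ≤ n) (r : ℝ) (hr0 : 0 < r) (hr1 : r ≤ 1)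
    (hL : 2 < (1 - c0) / Real.log 4 * Real.log ((n : ℝ) ^ ((1 : ℝ) / 3) * r)) :
    ∃ a1 a2 : ℕ, 1 ≤ a1 ∧ a1 ≤ a2 ∧ ((2 * n : ℕ) : ℝ) ^ c0 ≤ 64 ^ a1 ∧ 64 ^ a2 ≤ 2 * n ∧
      rk κ a1 ≤ r ∧
      (1 - c0) / Real.log 4 * Real.log ((n : ℝ) ^ ((1 : ℝ) / 3) * r) - 2 ≤
        (a2 : ℝ) - a1 + 1 := by
  have hl4 : 0 < Real.log 4 := Real.log_pos (by norm_num)
  have h1c : 0 < 1 - c0 := by linarith
  obtain ⟨l, hl⟩ : ∃ l, l = Real.log 4 := ⟨_, rfl⟩
  rw [← hl] at hL hl4 ⊢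
  have hn0 : (0 : ℝ) < n := by exact_mod_cast hn
  obtain ⟨L, hLd⟩ : ∃ L, L = Real.log ((n : ℝ) ^ ((1 : ℝ) / 3) * r) := ⟨_, rfl⟩
  rw [← hLd] at hL ⊢
  have hLe : L = 1 / 3 * Real.log n + Real.log r := by
    rw [hLd, Real.log_mul (by positivity) hr0.ne', Real.log_rpow hn0]
  have hlogr : Real.log r ≤ 0 := Real.log_nonpos hr0.le hr1
  obtain ⟨N, hN⟩ : ∃ N : ℝ, N = 2 * n := ⟨_, rfl⟩
  have hN0 : 0 < N := by rw [hN]; positivity
  have hNn : Real.log n ≤ Real.log N := by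
    apply Real.log_le_log hn0
    rw [hN]; linarith
  have hL0 : 0 < L := by
    by_contra hc
    push Not at hc
    have : (1 - c0) / l * L ≤ 0 := mul_nonpos_of_nonneg_of_nonpos (by positivity) hc
    linarith
  have hlog64 : Real.log 64 = 3 * l := by
    rw [hl, show (64 : ℝ) = 4 ^ 3 by norm_num, Real.log_pow]
    norm_num
  obtain ⟨m, hm⟩ : ∃ m : ℝ, m = max (max (c0 * Real.log N / (3 * l)) (Real.log (κ / r) / l)) 1 :=
    ⟨_, rfl⟩
  have hm1 : 1 ≤ m := by rw [hm]; exact le_max_right _ _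
  have hmA : c0 * Real.log N / (3 * l) ≤ m := by
    rw [hm]; exact (le_max_left _ _).trans (le_max_left _ _)
  have hmB : Real.log (κ / r) / l ≤ m := by
    rw [hm]; exact (le_max_right _ _).trans (le_max_left _ _)
  have hmu : m ≤ Real.log N / (3 * l) - (1 - c0) / l * L + 1 := by
    have hcL : (1 - c0) / l * L ≤ L / l := by
      rw [div_mul_eq_mul_div]
      apply div_le_div_of_nonneg_right _ hl4.le
      nlinarith
    have hNL : L / l ≤ Real.log N / (3 * l) := by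
      rw [div_le_div_iff₀ hl4 (by positivity)]
      nlinarith
    rw [hm]
    apply max_le (max_le _ _) _
    · have : (1 - c0) / l * L ≤ (1 - c0) * (Real.log N / (3 * l)) := by
        calc (1 - c0) / l * L = (1 - c0) * (L / l) := by ring
          _ ≤ _ := mul_le_mul_of_nonneg_left hNL h1c.le
      have e : c0 * Real.log N / (3 * l) = c0 * (Real.log N / (3 * l)) := by ring
      rw [e]
      linarith
    · have h2 : Real.log (κ / r) ≤ - Real.log r := by
        rw [Real.log_div hκ0.ne' hr0.ne']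
        have := Real.log_nonpos hκ0.le hκ1
        linarith
      have h3 : Real.log (κ / r) / l ≤ (- Real.log r) / l :=
        div_le_div_of_nonneg_right h2 hl4.le
      have h4 : (- Real.log r) / l ≤ Real.log N / (3 * l) - L / l := by
        rw [hLe]
        have : Real.log N / (3 * l) - (1 / 3 * Real.log n + Real.log r) / l =
            (Real.log N - Real.log n) / (3 * l) + (- Real.log r) / l := by
          field_simp
          ring
        rw [this]
        have : 0 ≤ (Real.log N - Real.log n) / (3 * l) := by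
          apply div_nonneg <;> linarith
        linarith
      linarith
    · linarith
  have hc1' := Nat.ceil_lt_add_one (show 0 ≤ m by linarith)
  have hf1 := Nat.lt_floor_add_one (Real.log N / (3 * l))
  have hfin : (1 - c0) / l * L - 2 ≤ ((⌊Real.log N / (3 * l)⌋₊ : ℕ) : ℝ) - (⌈m⌉₊ : ℕ) + 1 := by
    linarith
  have hma := Nat.le_ceil m
  refine ⟨⌈m⌉₊, ⌊Real.log N / (3 * l)⌋₊, ?_, ?_, ?_, ?_, ?_, hfin⟩
  · exact Nat.one_le_iff_ne_zero.2 (Nat.pos_iff_ne_zero.1 (Nat.ceil_pos.2 (by linarith)))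
  · have : ((⌈m⌉₊ : ℕ) : ℝ) < ((⌊Real.log N / (3 * l)⌋₊ : ℕ) : ℝ) + 1 := by linarith
    have h2 : ⌈m⌉₊ < ⌊Real.log N / (3 * l)⌋₊ + 1 := by exact_mod_cast this
    omega
  · have e : ((2 * n : ℕ) : ℝ) = N := by rw [hN]; push_cast; ring
    rw [e, ← Real.rpow_natCast (64 : ℝ), Real.rpow_def_of_pos hN0, Real.rpow_def_of_pos (by norm_num),
      hlog64]
    apply Real.exp_le_exp.2
    have h2 : c0 * Real.log N / (3 * l) ≤ ((⌈m⌉₊ : ℕ) : ℝ) := hmA.trans hma
    rw [div_le_iff₀ (by positivity)] at h2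
    linarith
  · have hlogN : 0 ≤ Real.log N / (3 * l) := by
      have : 0 ≤ Real.log n := Real.log_natCast_nonneg n
      apply div_nonneg <;> linarith
    have h2 := Nat.floor_le hlogN
    rw [le_div_iff₀ (by positivity)] at h2
    have h3 : (64 : ℝ) ^ (⌊Real.log N / (3 * l)⌋₊) ≤ N := by
      rw [← Real.rpow_natCast (64 : ℝ), Real.rpow_def_of_pos (by norm_num), hlog64]
      calc Real.exp (3 * l * ((⌊Real.log N / (3 * l)⌋₊ : ℕ) : ℝ)) ≤ Real.exp (Real.log N) :=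
            Real.exp_le_exp.2 (by linarith)
        _ = N := Real.exp_log hN0
    rw [hN] at h3
    rw [hN]
    exact_mod_cast h3
  · unfold rk
    have h2 : Real.log (κ / r) / l ≤ ((⌈m⌉₊ : ℕ) : ℝ) := hmB.trans hma
    rw [div_le_iff₀ hl4] at h2
    have h3 : κ / r ≤ 4 ^ ⌈m⌉₊ := by
      rw [← Real.exp_log (show 0 < κ / r by positivity), ← Real.rpow_natCast (4 : ℝ),
        Real.rpow_def_of_pos (by norm_num), ← hl]
      exact Real.exp_le_exp.2 (by linarith)
    rw [div_le_iff₀ hr0] at h3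
    rw [one_div, inv_pow, ← div_eq_mul_inv, div_le_iff₀ (by positivity)]
    linarith

theorem pf_ALL (h_ONE : T_ONE) (h_DYS : T_DYS) (h_VVF : T_VVF) : T_ALL := by
  intro q hq0 hq1 hKK hDV
  obtain ⟨C1, κ, c0, n1, hC1, hκ0, hκ1, hc0, hc1, H⟩ := h_ONE q hq0 hq1 hKK
  obtain ⟨c, n2, hc, hV⟩ := hDV
  have hl4 : 0 < Real.log 4 := Real.log_pos (by norm_num)
  have h1c : 0 < 1 - c0 := by linarith
  obtain ⟨c', hc'⟩ : ∃ c', c' = (1 - c0) / Real.log 4 := ⟨_, rfl⟩
  have hc'0 : 0 < c' := by rw [hc']; positivity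
  obtain ⟨C2, hC2⟩ : ∃ C2, C2 = C1 * (8 / 3 + 4 / c) := ⟨_, rfl⟩
  have hC20 : 0 < C2 := by rw [hC2]; positivity
  obtain ⟨n3, hn3⟩ : ∃ n3, n3 = max n1 n2 := ⟨_, rfl⟩
  have hK : 0 ≤ Real.log ((n3 + 1 : ℕ) : ℝ) := Real.log_natCast_nonneg _
  refine ⟨1 + (C2 + 2) / c' + Real.log ((n3 + 1 : ℕ) : ℝ), by positivity, ?_⟩
  intro n hn r hr0 hr1
  obtain ⟨-, hVV0, -, hVV4, -, hVV6, hInf⟩ := h_VVF q hq0.le hq1 n
  obtain ⟨V, hVd⟩ : ∃ V, V = VV q n (fun _ => r) := ⟨_, rfl⟩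
  obtain ⟨v, hvd⟩ : ∃ v, v = Var[ff n; PE q] := ⟨_, rfl⟩
  have hV0 : 0 ≤ V := by rw [hVd]; exact hVV0 _
  have hVv : V ≤ v := by
    rw [hVd, hvd, ← hVV4 (fun _ => 0) (fun _ _ => rfl)]
    exact hVV6 _ _ (fun x _ => ⟨le_rfl, hr0.le, hr1⟩)
  have hv0 : 0 ≤ v := hV0.trans hVv
  obtain ⟨L, hLd⟩ : ∃ L, L = Real.log ((n : ℝ) ^ ((1 : ℝ) / 3) * r) := ⟨_, rfl⟩
  rw [← hVd, ← hvd, ← hLd]
  have hn0 : (0 : ℝ) < n := by exact_mod_cast hn
  have hInft : ∀ ρ : Site → ℝ, 0 ≤ Inft q n ρ := fun ρ =>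
    Finset.sum_nonneg fun x _ => hInf ρ x
  by_cases hn' : n3 ≤ n
  · -- large `n`
    have key : V * (c' * L - 2) ≤ C2 * v := by
      by_cases hL2 : 2 < c' * L
      · rw [hLd, hc'] at hL2
        obtain ⟨a1, a2, ha1, ha12, h64, h64', hrk, hcount⟩ :=
          scales κ c0 hκ0 hκ1 hc0 hc1 n hn r hr0 hr1 hL2
        rw [← hLd, ← hc'] at hcount
        have hsum : ∑ a ∈ Finset.Icc a1 a2, V ≤ ∑ a ∈ Finset.Icc a1 a2,
            (C1 * ∑ k ∈ Finset.Icc a n,
              (1 / 2) ^ (k - a) * (rk κ k * Inft q n (fun _ => rk κ k)) + C1 * 16 ^ a) := by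
          refine Finset.sum_le_sum fun a ha => ?_
          obtain ⟨hb1, hb2⟩ := Finset.mem_Icc.1 ha
          rw [hVd]
          apply H n (by omega) r hr0 hr1 a (by omega)
          · exact h64.trans (pow_le_pow_right₀ (by norm_num) hb1)
          · exact (Nat.pow_le_pow_right (by norm_num) hb2).trans h64'
          · refine le_trans ?_ hrk
            unfold rk
            apply mul_le_mul_of_nonneg_left _ hκ0.le
            exact pow_le_pow_of_le_one (by norm_num) (by norm_num) hb1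
        rw [Finset.sum_add_distrib, ← Finset.mul_sum, ← Finset.mul_sum, Finset.sum_const,
          Nat.card_Icc, nsmul_eq_mul] at hsum
        have h1 := swap_sum a1 a2 n (fun k => rk κ k * Inft q n (fun _ => rk κ k))
          (fun k => mul_nonneg (by unfold rk; positivity) (hInft _))
        have h2 := h_DYS q hq0.le hq1 n κ hκ0 hκ1 a1 n
        rw [← hvd] at h2
        have h3 := sum_sixteen a1 a2
        have h4 := sixteen_le n a2 h64'
        have h5 := hV n (by omega)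
        rw [← hvd] at h5
        have h6 : (n : ℝ) ^ ((2 : ℝ) / 3) ≤ v / c := by
          rw [le_div_iff₀ hc]; linarith
        have h7 : ((a2 + 1 - a1 : ℕ) : ℝ) = (a2 : ℝ) - a1 + 1 := by
          rw [Nat.cast_sub (by omega)]; push_cast; ring
        rw [h7] at hsum
        have h8 : C1 * ∑ a ∈ Finset.Icc a1 a2, ∑ k ∈ Finset.Icc a n,
              (1 / 2 : ℝ) ^ (k - a) * (rk κ k * Inft q n (fun _ => rk κ k)) ≤
              C1 * (8 / 3 * v) := by
          apply mul_le_mul_of_nonneg_left _ hC1.le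
          linarith
        have h9 : C1 * ∑ a ∈ Finset.Icc a1 a2, (16 : ℝ) ^ a ≤ C1 * (4 * (v / c)) := by
          apply mul_le_mul_of_nonneg_left _ hC1.le
          linarith
        have h10 : C1 * (8 / 3 * v) + C1 * (4 * (v / c)) = C2 * v := by
          rw [hC2]; field_simp
        calc V * (c' * L - 2) ≤ V * ((a2 : ℝ) - a1 + 1) :=
              mul_le_mul_of_nonneg_left hcount hV0
          _ = ((a2 : ℝ) - a1 + 1) * V := mul_comm _ _
          _ ≤ C2 * v := by linarith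
      · push Not at hL2
        have h1 : V * (c' * L - 2) ≤ 0 := mul_nonpos_of_nonneg_of_nonpos hV0 (by linarith)
        have h2 : 0 ≤ C2 * v := by positivity
        linarith
    have hVL : V * L ≤ (C2 + 2) / c' * v := by
      have h1 : V * L * c' ≤ (C2 + 2) * v := by nlinarith
      rw [div_mul_eq_mul_div, le_div_iff₀ hc'0]
      exact h1
    have hmax : V * max 0 L ≤ (C2 + 2) / c' * v := by
      rcases le_total 0 L with h | h
      · rw [max_eq_right h]; exact hVL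
      · rw [max_eq_left h, mul_zero]; positivity
    nlinarith [mul_nonneg hK hv0]
  · push Not at hn'
    have hLK : L ≤ Real.log ((n3 + 1 : ℕ) : ℝ) := by
      have hLe : L = 1 / 3 * Real.log n + Real.log r := by
        rw [hLd, Real.log_mul (by positivity) hr0.ne', Real.log_rpow hn0]
      have hlogr : Real.log r ≤ 0 := Real.log_nonpos hr0.le hr1
      have h1 : 0 ≤ Real.log n := Real.log_natCast_nonneg n
      have h2 : Real.log n ≤ Real.log ((n3 + 1 : ℕ) : ℝ) := by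
        apply Real.log_le_log hn0
        exact_mod_cast (by omega : n ≤ n3 + 1)
      linarith
    have hmax : max 0 L ≤ Real.log ((n3 + 1 : ℕ) : ℝ) := max_le hK hLK
    have h3 : V * max 0 L ≤ v * Real.log ((n3 + 1 : ℕ) : ℝ) :=
      mul_le_mul hVv hmax (le_max_left _ _) hv0
    have h4 : 0 ≤ (C2 + 2) / c' * v := by positivity
    nlinarith

end Pool.Agent.H19.NF
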