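import Pool.Agent.H97.NF.Targets
import Pool.Agent.H22.LPP.Basics

/-!
# Module LPT: lattice paths and rotated paths
-/

open MeasureTheory ProbabilityTheory Filter Topology
open scoped ENNReal

namespace Pool.Agent.H19.NF

open Pool.Agent.H97.NF Pool.Agent.H99.NS

theorem sum_Ioc_int (f : ℤ → ℝ) (N : ℕ) :
    ∑ r ∈ Finset.Ioc (0 : ℤ) N, f r = ∑ i ∈ Finset.range N, f ((i : ℤ) + 1) := by
  induction N with
  | zero => simp
  | succ N ih =>
    rw [Finset.sum_range_succ, ← ih]
    have e : Finset.Ioc (0 : ℤ) ((N + 1 : ℕ) : ℤ) = insert ((N : ℤ) + 1) (Finset.Ioc (0 : ℤ) N) := by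
      ext r
      simp only [Finset.mem_Ioc, Finset.mem_insert]
      push_cast
      omega
    rw [e, Finset.sum_insert (by simp), add_comm]

theorem dir_sum {u v : ℤ × ℤ} {m : ℕ} {x : ℕ → ℤ × ℤ} (h : IsDirPath u v m x) (hu : u = (0, 0)) :
    ∀ i, i ≤ m → (x i).1 + (x i).2 = i := by
  intro i
  induction i with
  | zero =>
    intro _
    rw [h.1, hu]
    simp
  | succ i ih =>
    intro hi
    have h1 := ih (by omega)
    rcases h.2.2 i (by omega) with h2 | h2
    · have h3 := congrArg Prod.fst h2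
      have h4 := congrArg Prod.snd h2
      simp only [Prod.fst_sub, Prod.snd_sub] at h3 h4
      push_cast
      omega
    · have h3 := congrArg Prod.fst h2
      have h4 := congrArg Prod.snd h2
      simp only [Prod.fst_sub, Prod.snd_sub] at h3 h4
      push_cast
      omega

theorem dir_le (ω : ℤ × ℤ → ℕ) (n m : ℕ) (x : ℕ → ℤ × ℤ) (h : IsDirPath (0, 0) (n, n) m x) :
    ∑ i ∈ Finset.range (m + 1), (ω (x i) : ℝ) ≤ ω (0, 0) + ff n (rot ω) := by
  have hs := dir_sum h rfl
  have hm : m = 2 * n := by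
    have h1 := hs m le_rfl
    rw [h.2.1] at h1
    simp only at h1
    omega
  subst hm
  obtain ⟨γ, hγ⟩ : ∃ γ : ℤ → ℤ, γ = fun t => (x t.toNat).1 - (x t.toNat).2 := ⟨_, rfl⟩
  have hc : Pool.Agent.H22.LPP.Conn ((0, 0) : Site) ((2 * n, 0) : Site) γ := by
    refine ⟨?_, ?_, ?_⟩
    · intro r hr0 hr1
      simp only at hr0 hr1
      obtain ⟨i, rfl⟩ := Int.eq_ofNat_of_zero_le hr0
      have hi : i < 2 * n := by omega
      have e1 : ((i : ℤ) + 1).toNat = i + 1 := by omega
      have e2 : ((i : ℤ)).toNat = i := by omega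
      rw [hγ]
      simp only [e1, e2]
      rcases h.2.2 i hi with h2 | h2
      · have h3 := congrArg Prod.fst h2
        have h4 := congrArg Prod.snd h2
        simp only [Prod.fst_sub, Prod.snd_sub] at h3 h4
        left
        omega
      · have h3 := congrArg Prod.fst h2
        have h4 := congrArg Prod.snd h2
        simp only [Prod.fst_sub, Prod.snd_sub] at h3 h4
        right
        omega
    · rw [hγ]
      simp only [Int.toNat_zero, h.1]
      norm_num
    · rw [hγ]
      have e1 : (2 * (n : ℤ)).toNat = 2 * n := by omega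
      simp only [e1, h.2.1]
      omega
  have h1 := Pool.Agent.H22.LPP.le_T (rot ω) (u := ((0, 0) : Site)) (v := ((2 * n, 0) : Site))
    (γ := γ) (by simp) hc
  have h2 : wt (rot ω) 0 (2 * n) γ = ∑ i ∈ Finset.range (2 * n), (ω (x (i + 1)) : ℝ) := by
    unfold wt
    have e0 : (2 * (n : ℤ)) = ((2 * n : ℕ) : ℤ) := by push_cast; ring
    rw [e0, sum_Ioc_int (fun r => (rot ω (r, γ r) : ℝ)) (2 * n)]
    refine Finset.sum_congr rfl fun i hi => ?_
    have hi' : i + 1 ≤ 2 * n := by
      have := Finset.mem_range.1 hi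
      omega
    have e1 : ((i : ℤ) + 1).toNat = i + 1 := by omega
    have h3 := hs (i + 1) hi'
    push_cast at h3
    rw [hγ]
    simp only [e1, rot]
    congr 2
    apply Prod.ext
    · simp only
      omega
    · simp only
      omega
  rw [Finset.sum_range_succ', h.1, add_comm]
  unfold ff
  simp only at h1
  rw [h2] at h1
  linarith

theorem le_dir (ω : ℤ × ℤ → ℕ) (n : ℕ) : ∃ (m : ℕ) (x : ℕ → ℤ × ℤ), IsDirPath (0, 0) (n, n) m x ∧
    (ω (0, 0) : ℝ) + ff n (rot ω) = ∑ i ∈ Finset.range (m + 1), (ω (x i) : ℝ) := by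
  have hr : Reach ((0, 0) : Site) ((2 * n, 0) : Site) := by
    refine ⟨?_, ?_⟩
    · simp
    · exact ⟨n, by simp only; ring⟩
  obtain ⟨γ, hγ, hT, -⟩ := Pool.Agent.H22.LPP.T_attained (rot ω) hr
  obtain ⟨hp, h0, h2n⟩ := hγ
  simp only at hp h0 h2n
  have hpar : ∀ i : ℕ, i ≤ 2 * n → ((i : ℤ) + γ i) % 2 = 0 := by
    intro i
    induction i with
    | zero => intro _; simp [h0]
    | succ i ih =>
      intro hi
      have h1 := ih (by omega)
      have h2 := hp i (by omega) (by omega)
      push_cast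
      rcases h2 with h2 | h2 <;> omega
  obtain ⟨x, hx⟩ : ∃ x : ℕ → ℤ × ℤ, x = fun i : ℕ => (((i : ℤ) + γ i) / 2, ((i : ℤ) - γ i) / 2) :=
    ⟨_, rfl⟩
  have hx0 : x 0 = (0, 0) := by
    rw [hx]
    simp [h0]
  refine ⟨2 * n, x, ⟨hx0, ?_, ?_⟩, ?_⟩
  · rw [hx]
    have e0 : ((2 * n : ℕ) : ℤ) = 2 * (n : ℤ) := by push_cast; ring
    simp only [e0, h2n]
    apply Prod.ext
    · simp only; omega
    · simp only; omega
  · intro i hi
    have h1 := hpar i (by omega)
    have h2 := hp i (by omega) (by omega)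
    rw [hx]
    simp only
    push_cast
    rcases h2 with h2 | h2
    · left
      apply Prod.ext
      · simp only [Prod.fst_sub]; omega
      · simp only [Prod.snd_sub]; omega
    · right
      apply Prod.ext
      · simp only [Prod.fst_sub]; omega
      · simp only [Prod.snd_sub]; omega
  · rw [Finset.sum_range_succ', hx0, add_comm]
    congr 1
    unfold ff
    rw [hT]
    unfold wt
    have e0 : (2 * (n : ℤ)) = ((2 * n : ℕ) : ℤ) := by push_cast; ring
    simp only
    rw [e0, sum_Ioc_int (fun r => (rot ω (r, γ r) : ℝ)) (2 * n)]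
    refine Finset.sum_congr rfl fun i _ => ?_
    rw [hx]
    simp only [rot]
    push_cast
    rfl

theorem pf_LPT : T_LPT := by
  intro ω n
  obtain ⟨m, x, hx, he⟩ := le_dir ω n
  unfold Tn lpt
  apply le_antisymm
  · refine csSup_le ⟨_, m, x, hx, rfl⟩ ?_
    rintro s ⟨m', x', hx', rfl⟩
    exact dir_le ω n m' x' hx'
  · rw [he]
    refine le_csSup ⟨(ω (0, 0) : ℝ) + ff n (rot ω), ?_⟩ ⟨m, x, hx, rfl⟩
    rintro s ⟨m', x', hx', rfl⟩
    exact dir_le ω n m' x' hx'

end Pool.Agent.H19.NF
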