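import Pool.Agent.H97.NF.Targets

/-!
# Module ONE: one scale
-/

open MeasureTheory ProbabilityTheory Filter Topology
open scoped ENNReal

namespace Pool.Agent.H19.NF

open Pool.Agent.H97.NF Pool.Agent.H99.NS

theorem exp_twenty : (2048 : ℝ) ≤ Real.exp 20 := by
  have h1 : (2 : ℝ) ≤ Real.exp 1 := by
    have := Real.add_one_le_exp (1 : ℝ)
    linarith
  have h2 : Real.exp 20 = Real.exp 1 ^ 20 := by
    rw [← Real.exp_nat_mul]; norm_num
  rw [h2]
  calc (2048 : ℝ) ≤ 2 ^ 20 := by norm_num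
    _ ≤ Real.exp 1 ^ 20 := pow_le_pow_left₀ (by norm_num) h1 20

theorem exp_decay (M : ℝ) (hM : 20 ≤ M) (m : ℕ) :
    Real.exp (-(M * m)) * 1024 ^ m ≤ (1 / 2) ^ m := by
  have h1 : Real.exp (-(M * m)) ≤ (1 / 2048 : ℝ) ^ m := by
    have h2 : Real.exp (-(M * m)) = Real.exp (-M) ^ m := by
      rw [← Real.exp_nat_mul]; congr 1; ring
    rw [h2]
    apply pow_le_pow_left₀ (Real.exp_pos _).le
    rw [Real.exp_neg, one_div]
    apply inv_anti₀ (by norm_num)
    exact exp_twenty.trans (Real.exp_le_exp.2 hM)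
  calc Real.exp (-(M * m)) * 1024 ^ m ≤ (1 / 2048 : ℝ) ^ m * 1024 ^ m :=
        mul_le_mul_of_nonneg_right h1 (by positivity)
    _ = (1 / 2) ^ m := by rw [← mul_pow]; norm_num

open Classical in
theorem box_sum (A' : ℝ) (a k : ℕ) (f : Site → ℝ) (hf : ∀ x, 0 ≤ f x) (D : Finset Site)
    (Z : Finset (ℤ × ℤ)) (K : ℝ)
    (hK : ∀ (x : Site) (Z : Finset (ℤ × ℤ)), (∀ z ∈ Z, x ∈ kbox A' a z k) → (Z.card : ℝ) ≤ K) :
    ∑ z ∈ Z, ∑ x ∈ D.filter (fun x => x ∈ kbox A' a z k), f x ≤ K * ∑ x ∈ D, f x := by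
  have h1 : ∑ z ∈ Z, ∑ x ∈ D.filter (fun x => x ∈ kbox A' a z k), f x =
      ∑ x ∈ D, ((Z.filter (fun z => x ∈ kbox A' a z k)).card : ℝ) * f x := by
    simp_rw [Finset.sum_filter]
    rw [Finset.sum_comm]
    refine Finset.sum_congr rfl fun x _ => ?_
    rw [← Finset.sum_filter, Finset.sum_const, nsmul_eq_mul]
  rw [h1, Finset.mul_sum]
  refine Finset.sum_le_sum fun x _ => ?_
  apply mul_le_mul_of_nonneg_right _ (hf x)
  apply hK x
  intro z hz
  exact (Finset.mem_filter.1 hz).2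

theorem pf_ONE (h_TIL : T_TIL) (h_CNT : T_CNT) (h_VVF : T_VVF) : T_ONE := by
  classical
  intro q hq0 hq1 hKK
  obtain ⟨C, M, κ, c0, A', n0, hC, hM, hκ0, hκ1, hc0, hc1, hA', H⟩ := hKK
  refine ⟨3 * A' * C / κ + C + 1, κ, c0, n0, by positivity, hκ0, hκ1, hc0, hc1, ?_⟩
  intro n hn r hr0 hr1 a ha h64 h64' hrk
  obtain ⟨fail, hf0, hfS, hq⟩ := H n hn r hr0 hr1 a ha h64 h64' hrk
  obtain ⟨hcov, hcnt⟩ := h_CNT
  have hcov' := hcov a ha
  choose zf hzf using hcov'
  obtain ⟨Z, hZ⟩ : ∃ Z, Z = (domN n).image zf := ⟨_, rfl⟩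
  have hInf : ∀ (ρ : Site → ℝ) (x : Site), 0 ≤ Infx q n ρ x :=
    (h_VVF q hq0.le hq1 n).2.2.2.2.2.2
  have hInft : ∀ ρ : Site → ℝ, 0 ≤ Inft q n ρ := fun ρ =>
    Finset.sum_nonneg fun x _ => hInf ρ x
  have h1 := h_TIL q hq0.le hq1 n r hr0 hr1 Z (tile a)
    (fun z => C * ∑ k ∈ (Finset.Icc a n).filter (fun k => 64 ^ k ≤ 2 * n),
              Real.exp (-(M * ((k : ℝ) - a))) * (1 / 4) ^ k *
                ∑ x ∈ (domN n).filter (fun x => x ∈ kbox A' a z k),
                  Infx q n (fun _ => rk κ k) x + fail z)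
    (fun x hx => ⟨zf x, by rw [hZ]; exact Finset.mem_image_of_mem zf hx, hzf x⟩)
    (fun z hz ρ hρ => by
      rw [hZ, Finset.mem_image] at hz
      obtain ⟨x, hx, rfl⟩ := hz
      exact hq ρ hρ (zf x) ⟨x, hx, hzf x⟩)
  refine h1.trans ?_
  rw [Finset.sum_add_distrib, ← Finset.mul_sum, Finset.sum_comm]
  have h2 : ∑ k ∈ (Finset.Icc a n).filter (fun k => 64 ^ k ≤ 2 * n), ∑ z ∈ Z,
      Real.exp (-(M * ((k : ℝ) - a))) * (1 / 4) ^ k *
                ∑ x ∈ (domN n).filter (fun x => x ∈ kbox A' a z k),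
                  Infx q n (fun _ => rk κ k) x ≤
      ∑ k ∈ Finset.Icc a n, (6 * A' / κ) *
        ((1 / 2) ^ (k - a) * (rk κ k * Inft q n (fun _ => rk κ k))) := by
    calc _ ≤ ∑ k ∈ (Finset.Icc a n).filter (fun k => 64 ^ k ≤ 2 * n), (6 * A' / κ) *
        ((1 / 2) ^ (k - a) * (rk κ k * Inft q n (fun _ => rk κ k))) := by
          refine Finset.sum_le_sum fun k hk => ?_
          have hak : a ≤ k := (Finset.mem_Icc.1 (Finset.mem_filter.1 hk).1).1
          rw [← Finset.mul_sum]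
          have h3 := box_sum A' a k (fun x => Infx q n (fun _ => rk κ k) x)
            (fun x => hInf _ x) (domN n) Z (6 * A' * 1024 ^ (k - a))
            (fun x Z hz => hcnt A' hA' a k hak x Z hz)
          have h4 := exp_decay M hM (k - a)
          have e1 : ((k - a : ℕ) : ℝ) = (k : ℝ) - a := by rw [Nat.cast_sub hak]
          rw [e1] at h4
          have h5 : 0 ≤ Inft q n (fun _ => rk κ k) := hInft _
          have e2 : (1 / 4 : ℝ) ^ k = rk κ k / κ := by unfold rk; field_simp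
          have e3 : ∑ x ∈ domN n, Infx q n (fun _ => rk κ k) x = Inft q n (fun _ => rk κ k) := rfl
          rw [e3] at h3
          calc Real.exp (-(M * ((k : ℝ) - a))) * (1 / 4) ^ k *
              ∑ z ∈ Z, ∑ x ∈ (domN n).filter (fun x => x ∈ kbox A' a z k),
                  Infx q n (fun _ => rk κ k) x ≤
              Real.exp (-(M * ((k : ℝ) - a))) * (1 / 4) ^ k *
                (6 * A' * 1024 ^ (k - a) * Inft q n (fun _ => rk κ k)) :=
                mul_le_mul_of_nonneg_left h3 (by positivity)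
            _ = (6 * A' * (1 / 4) ^ k * Inft q n (fun _ => rk κ k)) *
                (Real.exp (-(M * ((k : ℝ) - a))) * 1024 ^ (k - a)) := by ring
            _ ≤ (6 * A' * (1 / 4) ^ k * Inft q n (fun _ => rk κ k)) * (1 / 2) ^ (k - a) :=
                mul_le_mul_of_nonneg_left h4 (by positivity)
            _ = _ := by rw [e2]; field_simp
      _ ≤ _ := by
          apply Finset.sum_le_sum_of_subset_of_nonneg (Finset.filter_subset _ _)
          intro k _ _
          have h5 : 0 ≤ Inft q n (fun _ => rk κ k) := hInft _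
          have h6 : 0 ≤ rk κ k := by unfold rk; positivity
          positivity
  rw [← Finset.mul_sum] at h2
  have hS : 0 ≤ ∑ k ∈ Finset.Icc a n,
        (1 / 2 : ℝ) ^ (k - a) * (rk κ k * Inft q n (fun _ => rk κ k)) := by
    apply Finset.sum_nonneg
    intro k _
    have h5 : 0 ≤ Inft q n (fun _ => rk κ k) := hInft _
    have h6 : 0 ≤ rk κ k := by unfold rk; positivity
    positivity
  have h7 := hfS Z
  have h8 := mul_le_mul_of_nonneg_left h2 hC
  have h9 : (0 : ℝ) ≤ 16 ^ a := by positivity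
  have h10 : C * (6 * A' / κ * ∑ k ∈ Finset.Icc a n,
        (1 / 2 : ℝ) ^ (k - a) * (rk κ k * Inft q n (fun _ => rk κ k))) =
      2 * ((3 * A' * C / κ) * ∑ k ∈ Finset.Icc a n,
        (1 / 2 : ℝ) ^ (k - a) * (rk κ k * Inft q n (fun _ => rk κ k))) := by ring
  rw [h10] at h8
  have h11 : 0 ≤ 3 * A' * C / κ := by positivity
  nlinarith [mul_nonneg hC hS, mul_nonneg h11 h9, mul_nonneg hC h9]

end Pool.Agent.H19.NF
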